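import Mathlib

set_option autoImplicit false

namespace Pool.Agent.Lib.MP_36c1dd_an

/-- A shift structure on `W` with one extra copy of `V`. -/
structure Shift (V W : Type*) [NormedAddCommGroup V] [NormedSpace ℝ V]
    [NormedAddCommGroup W] [NormedSpace ℝ W] where
  j : V →L[ℝ] W
  r : W →L[ℝ] V
  D : W →L[ℝ] W
  L : W →L[ℝ] W
  rj : ∀ v, r (j v) = v
  Lj : ∀ v, L (j v) = 0
  rD : ∀ w, r (D w) = 0
  LD : ∀ w, L (D w) = j (r w) + D (L w)
  DP : ∀ w, D (j (r w) + D (L w)) = D w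
  PL : ∀ w, j (r (L w)) + D (L (L w)) = L w

variable {V W W' : Type*} [NormedAddCommGroup V] [NormedSpace ℝ V]
    [NormedAddCommGroup W] [NormedSpace ℝ W] [NormedAddCommGroup W'] [NormedSpace ℝ W']

/-- Transfer of a shift structure along a complemented embedding. -/
def Shift.transfer (S : Shift V W) (E : W →L[ℝ] W') (R : W' →L[ℝ] W) (h : ∀ w, R (E w) = w) :
    Shift V W' where
  j := E ∘L S.j
  r := S.r ∘L R
  D := E ∘L S.D ∘L R
  L := E ∘L S.L ∘L R
  rj v := by simp [h, S.rj]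
  Lj v := by simp [h, S.Lj]
  rD w := by simp [h, S.rD]
  LD w := by simp [h, S.LD]
  DP w := by
    have := S.DP (R w)
    simp only [ContinuousLinearMap.comp_apply, h, ← map_add, this]
  PL w := by
    have := S.PL (R w)
    simp only [ContinuousLinearMap.comp_apply, h, ← map_add, this]

/-- The projection of a shift structure. -/
def Shift.P (S : Shift V W) : W →L[ℝ] W := S.j ∘L S.r + S.D ∘L S.L

theorem Shift.P_apply (S : Shift V W) (w : W) : S.P w = S.j (S.r w) + S.D (S.L w) := rfl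

theorem Shift.rP (S : Shift V W) (w : W) : S.r (S.P w) = S.r w := by
  simp [P_apply, S.rj, S.rD]

theorem Shift.PL' (S : Shift V W) (w : W) : S.P (S.L w) = S.L w := S.PL w

theorem Shift.DP' (S : Shift V W) (w : W) : S.D (S.P w) = S.D w := S.DP w

theorem Shift.LD' (S : Shift V W) (w : W) : S.L (S.D w) = S.P w := S.LD w

theorem Shift.LP (S : Shift V W) (w : W) : S.L (S.P w) = S.L w := by
  rw [P_apply, map_add, S.Lj, zero_add, S.LD', S.PL']

theorem Shift.Pj (S : Shift V W) (v : V) : S.P (S.j v) = S.j v := by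
  simp [P_apply, S.rj, S.Lj]

theorem Shift.PD (S : Shift V W) (w : W) : S.P (S.D w) = S.D w := by
  rw [P_apply, S.rD, map_zero, zero_add, S.LD', S.DP']

theorem Shift.PP (S : Shift V W) (w : W) : S.P (S.P w) = S.P w := by
  conv_lhs => rw [P_apply S w, map_add, S.Pj, S.PD]
  rfl

/-- The basic (not positive) isomorphism. -/
noncomputable def Shift.base (S : Shift V W) (a : ℝ) (ha : a ≠ 0) : W ≃L[ℝ] V × W :=
  ContinuousLinearEquiv.equivOfInverse
    ((a • S.r).prod (a • S.L + (ContinuousLinearMap.id ℝ W - S.P)))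
    (a⁻¹ • (S.j ∘L ContinuousLinearMap.fst ℝ V W + S.D ∘L ContinuousLinearMap.snd ℝ V W)
      + (ContinuousLinearMap.id ℝ W - S.P) ∘L ContinuousLinearMap.snd ℝ V W)
    (by
      intro h
      change a⁻¹ • (S.j (a • S.r h) + S.D (a • S.L h + (h - S.P h)))
        + ((a • S.L h + (h - S.P h)) - S.P (a • S.L h + (h - S.P h))) = h
      simp only [map_add, map_smul, map_sub, S.DP', S.PL', S.PP, sub_self,
        add_zero, smul_add, smul_smul, inv_mul_cancel₀ ha, one_smul]
      rw [← S.P_apply]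
      abel)
    (by
      rintro ⟨v, w⟩
      change (a • S.r (a⁻¹ • (S.j v + S.D w) + (w - S.P w)),
        a • S.L (a⁻¹ • (S.j v + S.D w) + (w - S.P w)) + ((a⁻¹ • (S.j v + S.D w) + (w - S.P w))
          - S.P (a⁻¹ • (S.j v + S.D w) + (w - S.P w)))) = (v, w)
      simp only [map_add, map_smul, map_sub, S.rj, S.rD, S.rP, S.Lj, S.LD',
        S.LP, S.Pj, S.PD, S.PP, sub_self, add_zero, zero_add, smul_smul,
        mul_inv_cancel₀ ha, one_smul]
      congr 1
      abel)

theorem Shift.base_apply (S : Shift V W) (a : ℝ) (ha : a ≠ 0) (h : W) :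
    S.base a ha h = (a • S.r h, a • S.L h + (h - S.P h)) := rfl

theorem Shift.base_symm_apply (S : Shift V W) (a : ℝ) (ha : a ≠ 0) (v : V) (w : W) :
    (S.base a ha).symm (v, w) = a⁻¹ • (S.j v + S.D w) + (w - S.P w) := rfl

theorem exists_unit [CompleteSpace W] (N : W →L[ℝ] W) :
    ∃ a : ℝ, 0 < a ∧ ∃ U : W ≃L[ℝ] W, ∀ w, U w = w + a⁻¹ • N w := by
  have hpos : 0 < ‖N‖ + 1 := by positivity
  have hlt : ‖-((‖N‖ + 1)⁻¹ • N)‖ < 1 := by
    rw [norm_neg, norm_smul, norm_inv, Real.norm_of_nonneg hpos.le, inv_mul_lt_iff₀ hpos]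
    linarith
  refine ⟨‖N‖ + 1, hpos, ContinuousLinearEquiv.ofUnit (Units.oneSub _ hlt), fun w => ?_⟩
  change (1 - -((‖N‖ + 1)⁻¹ • N)) w = _
  simp

theorem Shift.exists_out [CompleteSpace W] (S : Shift V W) :
    ∃ a : ℝ, 0 < a ∧ ∃ T : W ≃L[ℝ] V × W, ∀ h, T h = (a • S.r h, h + a • S.L h) := by
  obtain ⟨a, ha, U, hU⟩ := exists_unit S.D
  refine ⟨a, ha, U.trans (S.base a ha.ne'), fun h => ?_⟩
  rw [ContinuousLinearEquiv.trans_apply, hU, S.base_apply]
  simp only [map_add, map_smul, S.rD, S.LD', S.PD, smul_zero, add_zero, smul_add, smul_smul,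
    mul_inv_cancel₀ ha.ne', one_smul]
  congr 1
  abel

theorem Shift.exists_in [CompleteSpace W] (S : Shift V W) :
    ∃ a : ℝ, 0 < a ∧ ∃ T : (V × W) ≃L[ℝ] W, ∀ v w, T (v, w) = w + a • (S.j v + S.D w) := by
  obtain ⟨a, ha, U, hU⟩ := exists_unit S.L
  refine ⟨a, ha, (S.base a⁻¹ (inv_ne_zero ha.ne')).symm.trans U, fun v w => ?_⟩
  rw [ContinuousLinearEquiv.trans_apply, hU, S.base_symm_apply]
  simp only [inv_inv, map_add, map_smul, map_sub, S.Lj, S.LD', S.LP, zero_add, sub_self, add_zero,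
    smul_smul, inv_mul_cancel₀ ha.ne', one_smul]
  abel

end Pool.Agent.Lib.MP_36c1dd_an
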