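import Pool.Agent.Lib.MP_36c1dd_an.Ops
import Pool.Agent.Lib.MP_36c1dd_an.Shift

set_option autoImplicit false

open Filter Topology

namespace Pool.Agent.Lib.MP_36c1dd_an

/-- Dropping the first bit. -/
def tl : C(ℕ → Bool, ℕ → Bool) where
  toFun y := fun n => y (n + 1)
  continuous_toFun := continuous_pi fun n => continuous_apply (n + 1)

@[simp] theorem tl_cons (b : Bool) (y : ℕ → Bool) : tl (cons b y) = y := rfl

theorem exists_cons (y : ℕ → Bool) : ∃ b z, y = cons b z := ⟨_, _, (cons_tail y).symm⟩

section cut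
variable {M : Type*} [NormedAddCommGroup M] [NormedSpace ℝ M]

/-- Cutting off a function outside the cylinder with first bit `b`. -/
noncomputable def cut (M : Type*) [NormedAddCommGroup M] [NormedSpace ℝ M] (b : Bool) :
    C(ℕ → Bool, M) →L[ℝ] C(ℕ → Bool, M) :=
  LinearMap.mkContinuous
    { toFun := fun g => ⟨fun y => if y 0 = b then g y else 0, by
        refine Continuous.if ?_ g.continuous continuous_const
        have : IsClopen {y : ℕ → Bool | y 0 = b} :=
          (isClopen_discrete {b}).preimage (continuous_apply 0)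
        simp [this.frontier_eq]⟩
      map_add' := fun g h => by
        ext y
        by_cases hy : y 0 = b <;> simp [hy]
      map_smul' := fun c g => by
        ext y
        by_cases hy : y 0 = b <;> simp [hy] } 1 (by
    intro g
    rw [one_mul, ContinuousMap.norm_le _ (norm_nonneg g)]
    intro y
    by_cases hy : y 0 = b
    · simpa [hy] using g.norm_coe_le_norm y
    · simp [hy])

theorem cut_apply (b : Bool) (g : C(ℕ → Bool, M)) (y : ℕ → Bool) :
    cut M b g y = if y 0 = b then g y else 0 := rfl

end cut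

/-- The shift structure of the Cantor set as the sum of two copies of itself. -/
noncomputable def shiftCantor : Shift C(ℕ → Bool, ℝ) C(ℕ → Bool, ℝ) where
  j := cut ℝ false ∘L ContinuousMap.compCLM ℝ ℝ tl
  r := ContinuousMap.compCLM ℝ ℝ (cons false)
  D := cut ℝ true ∘L ContinuousMap.compCLM ℝ ℝ tl
  L := ContinuousMap.compCLM ℝ ℝ (cons true)
  rj v := by ext y; simp [cut_apply]
  Lj v := by ext y; simp [cut_apply]
  rD v := by ext y; simp [cut_apply]
  LD v := by
    ext y
    obtain ⟨b, z, rfl⟩ := exists_cons y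
    cases b <;> simp [cut_apply]
  DP v := by
    ext y
    obtain ⟨b, z, rfl⟩ := exists_cons y
    obtain ⟨c, u, rfl⟩ := exists_cons z
    cases b <;> cases c <;> simp [cut_apply]
  PL v := by
    ext y
    obtain ⟨b, z, rfl⟩ := exists_cons y
    cases b <;> simp [cut_apply]

/-- Running conjunction of the bits. -/
def retF (y : ℕ → Bool) : ℕ → Bool
  | 0 => y 0
  | n + 1 => retF y n && y (n + 1)

theorem retF_continuous (n : ℕ) : Continuous fun y : ℕ → Bool => retF y n := by
  induction n with
  | zero => exact continuous_apply 0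
  | succ n ih =>
    exact (continuous_of_discreteTopology (f := fun p : Bool × Bool => p.1 && p.2)).comp
      (ih.prodMk (continuous_apply (n + 1)))

/-- Retraction of the Cantor set onto a convergent sequence. -/
def ret : C(ℕ → Bool, ℕ → Bool) where
  toFun := retF
  continuous_toFun := continuous_pi retF_continuous

@[simp] theorem ret_false (y : ℕ → Bool) : ret (cons false y) = fun _ => false := by
  funext n
  change retF _ n = false
  induction n with
  | zero => rfl
  | succ n ih => simp [retF, ih]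

@[simp] theorem ret_zero : ret (fun _ => false) = fun _ => false := by
  have := ret_false (fun _ => false)
  rwa [show cons false (fun _ => false) = fun _ => false from by funext n; cases n <;> rfl] at this

@[simp] theorem ret_true (y : ℕ → Bool) : ret (cons true y) = cons true (ret y) := by
  funext n
  change retF _ n = cons true (retF y) n
  induction n with
  | zero => rfl
  | succ n ih =>
    rw [retF, ih]
    cases n with
    | zero => simp [retF]
    | succ m => simp [retF]

@[simp] theorem ret_ret (y : ℕ → Bool) : ret (ret y) = ret y := by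
  funext n
  change retF (retF y) n = retF y n
  induction n with
  | zero => rfl
  | succ n ih =>
    rw [retF, ih, retF]
    cases retF y n <;> simp

/-- The shift structure on vector valued functions given by a convergent sequence. -/
noncomputable def shiftSeq (M : Type*) [NormedAddCommGroup M] [NormedSpace ℝ M] :
    Shift M C(ℕ → Bool, M) where
  j := cut M false ∘L ContinuousLinearMap.const ℝ (ℕ → Bool)
  r := ContinuousMap.evalCLM ℝ (fun _ => false)
  D := cut M true ∘L ContinuousMap.compCLM ℝ M (ret.comp tl)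
  L := ContinuousMap.compCLM ℝ M ((cons true).comp ret)
  rj v := by simp [cut_apply]
  Lj v := by ext y; simp [cut_apply]
  rD v := by simp [cut_apply]
  LD v := by
    ext y
    obtain ⟨b, z, rfl⟩ := exists_cons y
    cases b <;> simp [cut_apply]
  DP v := by
    ext y
    obtain ⟨b, z, rfl⟩ := exists_cons y
    obtain ⟨c, u, rfl⟩ := exists_cons z
    cases b <;> cases c <;> simp [cut_apply]
  PL v := by
    ext y
    obtain ⟨b, z, rfl⟩ := exists_cons y
    cases b <;> simp [cut_apply]

/-- Even and odd part of a binary sequence. -/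
def split : C(ℕ → Bool, (ℕ → Bool) × (ℕ → Bool)) where
  toFun y := (fun n => y (2 * n), fun n => y (2 * n + 1))
  continuous_toFun := by fun_prop

/-- Interleaving two binary sequences. -/
def merge : C((ℕ → Bool) × (ℕ → Bool), ℕ → Bool) where
  toFun p := fun n => if n % 2 = 0 then p.1 (n / 2) else p.2 (n / 2)
  continuous_toFun := continuous_pi fun n => by
    by_cases h : n % 2 = 0 <;> simp only [h, if_true, if_false] <;> fun_prop

theorem split_merge (p : (ℕ → Bool) × (ℕ → Bool)) : split (merge p) = p := by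
  refine Prod.ext (funext fun n => ?_) (funext fun n => ?_)
  · change (if (2 * n) % 2 = 0 then p.1 (2 * n / 2) else p.2 (2 * n / 2)) = _
    rw [if_pos (by omega), show 2 * n / 2 = n by omega]
  · change (if (2 * n + 1) % 2 = 0 then p.1 ((2 * n + 1) / 2) else p.2 ((2 * n + 1) / 2)) = _
    rw [if_neg (by omega), show (2 * n + 1) / 2 = n by omega]

/-- Functions of two Cantor variables as functions of one. -/
def toOne : C(ℕ → Bool, C(ℕ → Bool, ℝ)) →L[ℝ] C(ℕ → Bool, ℝ) where
  toFun g := (ContinuousMap.uncurry g).comp split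
  map_add' _ _ := rfl
  map_smul' _ _ := rfl
  cont := (ContinuousMap.continuous_precomp split).comp ContinuousMap.continuous_uncurry

theorem toOne_apply (g : C(ℕ → Bool, C(ℕ → Bool, ℝ))) (y : ℕ → Bool) :
    toOne g y = g (split y).1 (split y).2 := rfl

/-- Functions of one Cantor variable as functions of two. -/
def toTwo : C(ℕ → Bool, ℝ) →L[ℝ] C(ℕ → Bool, C(ℕ → Bool, ℝ)) where
  toFun g := ContinuousMap.curry (g.comp merge)
  map_add' _ _ := rfl
  map_smul' _ _ := rfl
  cont := ContinuousMap.continuous_curry.comp (ContinuousMap.continuous_precomp merge)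

theorem toTwo_apply (g : C(ℕ → Bool, ℝ)) (y z : ℕ → Bool) :
    toTwo g y z = g (merge (y, z)) := rfl

theorem toTwo_toOne (g : C(ℕ → Bool, C(ℕ → Bool, ℝ))) : toTwo (toOne g) = g := by
  ext y z
  rw [toTwo_apply, toOne_apply, split_merge]

theorem step_out : ∃ T : C(unitInterval, ℝ) ≃L[ℝ] C(ℕ → Bool, ℝ) × C(unitInterval, ℝ),
    ∀ f : C(unitInterval, ℝ), (∀ x, 0 ≤ f x) → (∀ y, 0 ≤ (T f).1 y) ∧ ∀ x, 0 ≤ (T f).2 x := by
  obtain ⟨E, R, hE, hR, hRE⟩ := exists_ext
  obtain ⟨a, ha, T, hT⟩ := (shiftCantor.transfer E R hRE).exists_out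
  refine ⟨T, fun f hf => ?_⟩
  rw [hT]
  refine ⟨fun y => mul_nonneg ha.le (hR f hf _), fun x => add_nonneg (hf x) (mul_nonneg ha.le ?_)⟩
  exact hE ((R f).comp (cons true)) (fun y => hR f hf _) x

theorem step_in : ∃ T : (C(unitInterval, ℝ) × C(ℕ → Bool, ℝ)) ≃L[ℝ] C(ℕ → Bool, ℝ),
    ∀ (f : C(unitInterval, ℝ)) (g : C(ℕ → Bool, ℝ)), (∀ x, 0 ≤ f x) → (∀ y, 0 ≤ g y) →
      ∀ y, 0 ≤ T (f, g) y := by
  obtain ⟨J, A, hJ, hA, hAJ⟩ := exists_avg
  have h1 : ∀ w : C(ℕ → Bool, C(unitInterval, ℝ)),
      (A.compLeftContinuous ℝ (ℕ → Bool) ∘L toTwo)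
        ((toOne ∘L J.compLeftContinuous ℝ (ℕ → Bool)) w) = w := by
    intro w
    simp only [ContinuousLinearMap.comp_apply, toTwo_toOne]
    ext1 y
    exact hAJ (w y)
  obtain ⟨a, ha, T, hT⟩ := ((shiftSeq C(unitInterval, ℝ)).transfer _ _ h1).exists_in
  refine ⟨T, fun f g hf hg y => ?_⟩
  rw [hT]
  refine add_nonneg (hg y) (mul_nonneg ha.le (add_nonneg ?_ ?_))
  · refine hJ (if (split y).1 0 = false then f else 0) (fun x => ?_) (split y).2
    split_ifs
    · exact hf x
    · exact le_rfl
  · refine hJ (if (split y).1 0 = true then A (toTwo g (ret (tl (split y).1))) else 0)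
      (fun x => ?_) (split y).2
    split_ifs
    · exact hA (toTwo g (ret (tl (split y).1))) (fun z => hg _) x
    · exact le_rfl

theorem main : ∃ T : C(unitInterval, ℝ) ≃L[ℝ] C(ℕ → Bool, ℝ),
    ∀ f : C(unitInterval, ℝ), (∀ x, 0 ≤ f x) → ∀ y, 0 ≤ T f y := by
  obtain ⟨T₁, h₁⟩ := step_out
  obtain ⟨T₂, h₂⟩ := step_in
  refine ⟨T₁.trans ((ContinuousLinearEquiv.prodComm ℝ _ _).trans T₂), fun f hf y => ?_⟩
  exact h₂ (T₁ f).2 (T₁ f).1 (h₁ f hf).2 (h₁ f hf).1 y

end Pool.Agent.Lib.MP_36c1dd_an
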