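import Mathlib

set_option autoImplicit false

open Filter Topology

namespace Pool.Agent.Lib.MP_36c1dd_an

/-- Prepending a bit to a binary sequence. -/
def cons (b : Bool) : C(ℕ → Bool, ℕ → Bool) where
  toFun y := fun n => Nat.casesOn n b y
  continuous_toFun := continuous_pi fun n => by
    cases n with
    | zero => exact continuous_const
    | succ k => exact continuous_apply k

@[simp] theorem cons_zero (b : Bool) (y : ℕ → Bool) : cons b y 0 = b := rfl
@[simp] theorem cons_succ (b : Bool) (y : ℕ → Bool) (k : ℕ) : cons b y (k + 1) = y k := rfl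

theorem cons_tail (y : ℕ → Bool) : cons (y 0) (fun n => y (n + 1)) = y := by
  funext n; cases n <;> rfl

variable {K : Type*} [TopologicalSpace K]

/-- Finite stage of the self-similar averaging operator. -/
noncomputable def stage (lam : C(K, ℝ)) (σ : Bool → C(K, K)) :
    ℕ → (C(ℕ → Bool, ℝ) →ₗ[ℝ] C(K, ℝ))
  | 0 => { toFun := fun g => ContinuousMap.const K (g fun _ => false)
           map_add' := fun _ _ => rfl
           map_smul' := fun _ _ => rfl }
  | n + 1 =>
    { toFun := fun g => lam * (stage lam σ n (g.comp (cons false))).comp (σ false)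
        + (1 - lam) * (stage lam σ n (g.comp (cons true))).comp (σ true)
      map_add' := fun g h => by
        rw [ContinuousMap.add_comp, ContinuousMap.add_comp, map_add, map_add,
          ContinuousMap.add_comp, ContinuousMap.add_comp]
        ring
      map_smul' := fun c g => by
        rw [ContinuousMap.smul_comp, ContinuousMap.smul_comp, map_smul, map_smul,
          ContinuousMap.smul_comp, ContinuousMap.smul_comp]
        simp }

theorem stage_zero (lam : C(K, ℝ)) (σ : Bool → C(K, K)) (g : C(ℕ → Bool, ℝ)) (x : K) :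
    stage lam σ 0 g x = g fun _ => false := rfl

theorem stage_succ (lam : C(K, ℝ)) (σ : Bool → C(K, K)) (n : ℕ) (g : C(ℕ → Bool, ℝ)) (x : K) :
    stage lam σ (n + 1) g x = lam x * stage lam σ n (g.comp (cons false)) (σ false x)
      + (1 - lam x) * stage lam σ n (g.comp (cons true)) (σ true x) := rfl

theorem convex_abs {l u v a b ε : ℝ} (h0 : 0 ≤ l) (h1 : l ≤ 1) (hu : |u - a| ≤ ε)
    (hv : |v - b| ≤ ε) : |(l * u + (1 - l) * v) - (l * a + (1 - l) * b)| ≤ ε := by
  rw [abs_le] at *
  constructor <;> nlinarith [hu.1, hu.2, hv.1, hv.2]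

variable {lam : C(K, ℝ)} {σ : Bool → C(K, K)}

theorem stage_bound (h0 : ∀ x, 0 ≤ lam x) (h1 : ∀ x, lam x ≤ 1) (n : ℕ) :
    ∀ (g : C(ℕ → Bool, ℝ)) (m M : ℝ), (∀ y, m ≤ g y ∧ g y ≤ M) →
      ∀ x, m ≤ stage lam σ n g x ∧ stage lam σ n g x ≤ M := by
  induction n with
  | zero => intro g m M h x; exact h _
  | succ n ih =>
    intro g m M h x
    have a := ih (g.comp (cons false)) m M (fun y => h _) (σ false x)
    have b := ih (g.comp (cons true)) m M (fun y => h _) (σ true x)
    rw [stage_succ]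
    have := h0 x
    have := h1 x
    constructor <;> nlinarith [a.1, a.2, b.1, b.2]

/-- Oscillation at level `n` is at most `ε`. -/
def Osc (g : C(ℕ → Bool, ℝ)) (n : ℕ) (ε : ℝ) : Prop :=
  ∀ y y' : ℕ → Bool, (∀ i < n, y i = y' i) → |g y - g y'| ≤ ε

theorem Osc.comp {g : C(ℕ → Bool, ℝ)} {n : ℕ} {ε : ℝ} (h : Osc g (n + 1) ε) (b : Bool) :
    Osc (g.comp (cons b)) n ε := by
  intro y y' hy
  apply h
  intro i hi
  cases i with
  | zero => rfl
  | succ k => exact hy k (by omega)

theorem Osc.mono {g : C(ℕ → Bool, ℝ)} {n m : ℕ} {ε : ℝ} (h : Osc g n ε) (hnm : n ≤ m) :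
    Osc g m ε := fun y y' hy => h y y' fun i hi => hy i (by omega)

theorem exists_osc (g : C(ℕ → Bool, ℝ)) {ε : ℝ} (hε : 0 < ε) : ∃ n, Osc g n ε := by
  have huc : UniformContinuous g := CompactSpace.uniformContinuous_of_continuous g.continuous
  have hU : {p : (ℕ → Bool) × (ℕ → Bool) | dist (g p.1) (g p.2) < ε} ∈ uniformity (ℕ → Bool) :=
    huc (Metric.dist_mem_uniformity hε)
  by_contra hcon
  push Not at hcon
  have hcon' : ∀ n, ∃ p : (ℕ → Bool) × (ℕ → Bool), (∀ i < n, p.1 i = p.2 i) ∧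
      ε < |g p.1 - g p.2| := by
    intro n
    have := hcon n
    unfold Osc at this
    push Not at this
    obtain ⟨y, y', h1, h2⟩ := this
    exact ⟨(y, y'), h1, h2⟩
  choose p hp1 hp2 using hcon'
  have ht : Tendsto p atTop (uniformity (ℕ → Bool)) := by
    rw [Pi.uniformity, tendsto_iInf]
    intro i
    rw [tendsto_comap_iff]
    have : ∀ᶠ n in atTop, ((fun a : (ℕ → Bool) × (ℕ → Bool) => (a.1 i, a.2 i)) ∘ p) n
        ∈ (SetRel.id : SetRel Bool Bool) := by
      filter_upwards [eventually_gt_atTop i] with n hn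
      exact hp1 n i hn
    intro s hs
    filter_upwards [this] with n hn
    exact SetRel.id_subset_iff.mpr ⟨fun a => refl_mem_uniformity hs⟩ hn
  obtain ⟨n, hn⟩ := (ht.eventually hU).exists
  have := hp2 n
  rw [Real.dist_eq] at hn
  linarith

theorem stage_cauchy (h0 : ∀ x, 0 ≤ lam x) (h1 : ∀ x, lam x ≤ 1) (n k : ℕ) :
    ∀ (g : C(ℕ → Bool, ℝ)) (ε : ℝ), Osc g n ε →
      ∀ x, |stage lam σ (n + k) g x - stage lam σ n g x| ≤ ε := by
  induction n with
  | zero =>
    intro g ε h x
    have := stage_bound (σ := σ) h0 h1 (0 + k) g (g (fun _ => false) - ε) (g (fun _ => false) + ε)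
      (fun y => by
        have := abs_le.mp (h y (fun _ => false) (by simp))
        constructor <;> linarith [this.1, this.2]) x
    rw [stage_zero, abs_le]
    constructor <;> linarith [this.1, this.2]
  | succ n ih =>
    intro g ε h x
    rw [show n + 1 + k = (n + k) + 1 by ring, stage_succ, stage_succ]
    exact convex_abs (h0 x) (h1 x) (ih _ ε (h.comp false) _) (ih _ ε (h.comp true) _)

variable [CompactSpace K]

theorem exists_markov (h0 : ∀ x, 0 ≤ lam x) (h1 : ∀ x, lam x ≤ 1) (σ : Bool → C(K, K)) :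
    ∃ A : C(ℕ → Bool, ℝ) →L[ℝ] C(K, ℝ), (∀ g : C(ℕ → Bool, ℝ), (∀ y, 0 ≤ g y) → ∀ x, 0 ≤ A g x) ∧
      ∀ g x, Tendsto (fun n => stage lam σ n g x) atTop (𝓝 (A g x)) := by
  have hc : ∀ g : C(ℕ → Bool, ℝ), CauchySeq fun n => stage lam σ n g := by
    intro g
    rw [Metric.cauchySeq_iff']
    intro ε hε
    obtain ⟨N, hN⟩ := exists_osc g (half_pos hε)
    refine ⟨N, fun n hn => ?_⟩
    obtain ⟨k, rfl⟩ := Nat.exists_eq_add_of_le hn
    refine lt_of_le_of_lt ((ContinuousMap.dist_le (half_pos hε).le).mpr fun x => ?_)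
      (half_lt_self hε)
    rw [Real.dist_eq]
    exact stage_cauchy h0 h1 N k g _ hN x
  choose a ha using fun g => cauchySeq_tendsto_of_complete (hc g)
  have hev : ∀ g x, Tendsto (fun n => stage lam σ n g x) atTop (𝓝 (a g x)) := fun g x =>
    ((ContinuousMap.evalCLM ℝ x (M := ℝ)).continuous.tendsto _).comp (ha g)
  let Al : C(ℕ → Bool, ℝ) →ₗ[ℝ] C(K, ℝ) :=
    { toFun := a
      map_add' := fun g h => by
        refine tendsto_nhds_unique (ha (g + h)) ?_
        simp only [map_add]
        exact (ha g).add (ha h)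
      map_smul' := fun c g => by
        refine tendsto_nhds_unique (ha (c • g)) ?_
        simp only [map_smul]
        exact (ha g).const_smul c }
  have hb : ∀ g, ‖Al g‖ ≤ 1 * ‖g‖ := by
    intro g
    rw [one_mul, ContinuousMap.norm_le _ (norm_nonneg g)]
    intro x
    have hs := fun n => stage_bound (σ := σ) h0 h1 n g (-‖g‖) ‖g‖
      (fun y => abs_le.mp (g.norm_coe_le_norm y)) x
    rw [Real.norm_eq_abs, abs_le]
    exact ⟨ge_of_tendsto' (hev g x) fun n => (hs n).1, le_of_tendsto' (hev g x) fun n => (hs n).2⟩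
  refine ⟨Al.mkContinuous 1 hb, fun g hg x => ?_, hev⟩
  have hs := fun n => stage_bound (σ := σ) h0 h1 n g 0 ‖g‖
    (fun y => ⟨hg y, (abs_le.mp (g.norm_coe_le_norm y)).2⟩) x
  exact ge_of_tendsto' (hev g x) fun n => (hs n).1

end Pool.Agent.Lib.MP_36c1dd_an
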