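import Pool.Agent.Lib.MP_36c1dd_an.Markov

set_option autoImplicit false

open Filter Topology

namespace Pool.Agent.Lib.MP_36c1dd_an

/-- A bit as a real number. -/
def bit (b : Bool) : ℝ := if b then 1 else 0

theorem bit_nonneg (b : Bool) : 0 ≤ bit b := by cases b <;> simp [bit]
theorem bit_le_one (b : Bool) : bit b ≤ 1 := by cases b <;> simp [bit]

/-- The expansion map with ratio `r`. -/
noncomputable def expo (r : ℝ) (y : ℕ → Bool) : ℝ := ∑' k, (1 - r) * r ^ k * bit (y k)

theorem term_bound {r : ℝ} (h0 : 0 ≤ r) (h1 : r < 1) (y : ℕ → Bool) (k : ℕ) :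
    0 ≤ (1 - r) * r ^ k * bit (y k) ∧ (1 - r) * r ^ k * bit (y k) ≤ (1 - r) * r ^ k := by
  have a : 0 ≤ (1 - r) * r ^ k := mul_nonneg (by linarith) (pow_nonneg h0 k)
  exact ⟨mul_nonneg a (bit_nonneg _), by nlinarith [bit_le_one (y k)]⟩

theorem geo_summable {r : ℝ} (h0 : 0 ≤ r) (h1 : r < 1) : Summable fun k : ℕ => (1 - r) * r ^ k :=
  (summable_geometric_of_lt_one h0 h1).mul_left _

theorem expo_summable {r : ℝ} (h0 : 0 ≤ r) (h1 : r < 1) (y : ℕ → Bool) :
    Summable fun k : ℕ => (1 - r) * r ^ k * bit (y k) :=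
  Summable.of_nonneg_of_le (fun k => (term_bound h0 h1 y k).1) (fun k => (term_bound h0 h1 y k).2)
    (geo_summable h0 h1)

theorem expo_mem {r : ℝ} (h0 : 0 ≤ r) (h1 : r < 1) (y : ℕ → Bool) : expo r y ∈ Set.Icc (0 : ℝ) 1 := by
  refine ⟨tsum_nonneg fun k => (term_bound h0 h1 y k).1, ?_⟩
  have := (expo_summable h0 h1 y).tsum_le_tsum (fun k => (term_bound h0 h1 y k).2)
    (geo_summable h0 h1)
  rw [tsum_mul_left, tsum_geometric_of_lt_one h0 h1, mul_inv_cancel₀ (by linarith)] at this
  exact this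

theorem expo_continuous {r : ℝ} (h0 : 0 ≤ r) (h1 : r < 1) : Continuous (expo r) := by
  refine continuous_tsum (fun k => ?_) (geo_summable h0 h1) (fun k y => ?_)
  · exact continuous_const.mul ((continuous_of_discreteTopology (f := bit)).comp (continuous_apply k))
  · rw [Real.norm_of_nonneg (term_bound h0 h1 y k).1]
    exact (term_bound h0 h1 y k).2

theorem expo_cons {r : ℝ} (h0 : 0 ≤ r) (h1 : r < 1) (b : Bool) (y : ℕ → Bool) :
    expo r (cons b y) = (1 - r) * bit b + r * expo r y := by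
  unfold expo
  rw [(expo_summable h0 h1 _).tsum_eq_zero_add, ← tsum_mul_left]
  simp only [cons_zero, cons_succ, pow_zero, mul_one]
  congr 1
  refine tsum_congr fun k => ?_
  ring

/-- The expansion map as a continuous map to the unit interval. -/
noncomputable def expoI (r : ℝ) (h0 : 0 ≤ r) (h1 : r < 1) : C(ℕ → Bool, unitInterval) where
  toFun y := ⟨expo r y, expo_mem h0 h1 y⟩
  continuous_toFun := (expo_continuous h0 h1).subtype_mk _

/-- The weight: one on the left third, zero on the right third. -/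
noncomputable def wt : C(unitInterval, ℝ) where
  toFun x := max 0 (min 1 (2 - 3 * (x : ℝ)))
  continuous_toFun := by fun_prop

theorem wt_nonneg (x : unitInterval) : 0 ≤ wt x := le_max_left _ _
theorem wt_le_one (x : unitInterval) : wt x ≤ 1 := max_le zero_le_one (min_le_left _ _)
theorem wt_eq_one {x : unitInterval} (h : (x : ℝ) ≤ 1 / 3) : wt x = 1 := by
  change max 0 (min 1 (2 - 3 * (x : ℝ))) = 1
  rw [min_eq_left (by linarith), max_eq_right zero_le_one]
theorem wt_eq_zero {x : unitInterval} (h : 2 / 3 ≤ (x : ℝ)) : wt x = 0 := by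
  change max 0 (min 1 (2 - 3 * (x : ℝ))) = 0
  exact max_eq_left (le_trans (min_le_right _ _) (by linarith))

/-- The clamped inverse branches. -/
noncomputable def inv (r : ℝ) (b : Bool) : C(unitInterval, unitInterval) where
  toFun x := Set.projIcc 0 1 zero_le_one (((x : ℝ) - (1 - r) * bit b) / r)
  continuous_toFun := continuous_projIcc.comp (by fun_prop)

/-- The contracting branches. -/
noncomputable def br (r : ℝ) (h0 : 0 ≤ r) (h1 : r < 1) (b : Bool) :
    C(unitInterval, unitInterval) where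
  toFun t := ⟨(1 - r) * bit b + r * (t : ℝ), by
    have := bit_nonneg b
    have := bit_le_one b
    have := t.2.1
    have := t.2.2
    constructor <;> nlinarith⟩
  continuous_toFun := Continuous.subtype_mk (by fun_prop) _

theorem br_coe (r : ℝ) (h0 : 0 ≤ r) (h1 : r < 1) (b : Bool) (t : unitInterval) :
    (br r h0 h1 b t : ℝ) = (1 - r) * bit b + r * (t : ℝ) := rfl

theorem expoI_cons {r : ℝ} (h0 : 0 ≤ r) (h1 : r < 1) (b : Bool) (y : ℕ → Bool) :
    expoI r h0 h1 (cons b y) = br r h0 h1 b (expoI r h0 h1 y) :=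
  Subtype.ext (expo_cons h0 h1 b y)

theorem inv_br {r : ℝ} (h0 : 0 < r) (h1 : r < 1) (b : Bool) (t : unitInterval) :
    inv r b (br r h0.le h1 b t) = t := by
  change Set.projIcc 0 1 zero_le_one ((((1 - r) * bit b + r * (t : ℝ)) - (1 - r) * bit b) / r) = t
  rw [add_sub_cancel_left, mul_div_cancel_left₀ _ h0.ne', Set.projIcc_val]

theorem br_inv {r : ℝ} (h0 : 0 < r) (h1 : r < 1) (b : Bool) (x : unitInterval)
    (ha : (1 - r) * bit b ≤ x) (hb : (x : ℝ) ≤ (1 - r) * bit b + r) :
    br r h0.le h1 b (inv r b x) = x := by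
  apply Subtype.ext
  rw [br_coe]
  have hm : ((x : ℝ) - (1 - r) * bit b) / r ∈ Set.Icc (0 : ℝ) 1 :=
    ⟨div_nonneg (by linarith) h0.le, (div_le_one h0).mpr (by linarith)⟩
  change (1 - r) * bit b + r * ((Set.projIcc 0 1 zero_le_one
    (((x : ℝ) - (1 - r) * bit b) / r) : unitInterval) : ℝ) = x
  rw [Set.projIcc_of_mem _ hm]
  field_simp
  ring

theorem third_pos : (0 : ℝ) < 1 / 3 := by norm_num
theorem third_lt : (1 / 3 : ℝ) < 1 := by norm_num
theorem twothird_pos : (0 : ℝ) < 2 / 3 := by norm_num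
theorem twothird_lt : (2 / 3 : ℝ) < 1 := by norm_num

theorem stage_ext (n : ℕ) : ∀ (g : C(ℕ → Bool, ℝ)) (ε : ℝ), Osc g n ε → ∀ y,
    |stage wt (inv (1 / 3)) n g (expoI (1 / 3) third_pos.le third_lt y) - g y| ≤ ε := by
  induction n with
  | zero => intro g ε h y; exact h _ _ (by simp)
  | succ n ih =>
    intro g ε h y
    rw [← cons_tail y]
    generalize (fun n => y (n + 1)) = z
    rw [stage_succ, expoI_cons]
    have ht := (expoI (1 / 3) third_pos.le third_lt z).2
    cases y 0 with
    | false =>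
      rw [wt_eq_one (by rw [br_coe]; simp only [bit]; norm_num; linarith [ht.2]),
        inv_br third_pos third_lt]
      simpa using ih _ ε (h.comp false) z
    | true =>
      rw [wt_eq_zero (by rw [br_coe]; simp only [bit]; norm_num; linarith [ht.1]),
        inv_br third_pos third_lt]
      simpa using ih _ ε (h.comp true) z

/-- Positive extension operator from the Cantor set to the interval. -/
theorem exists_ext : ∃ (E : C(ℕ → Bool, ℝ) →L[ℝ] C(unitInterval, ℝ))
    (R : C(unitInterval, ℝ) →L[ℝ] C(ℕ → Bool, ℝ)),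
    (∀ g : C(ℕ → Bool, ℝ), (∀ y, 0 ≤ g y) → ∀ x, 0 ≤ E g x) ∧
    (∀ f : C(unitInterval, ℝ), (∀ x, 0 ≤ f x) → ∀ y, 0 ≤ R f y) ∧ ∀ g, R (E g) = g := by
  obtain ⟨A, hA, hlim⟩ := exists_markov wt_nonneg wt_le_one (inv (1 / 3))
  refine ⟨A, ContinuousMap.compCLM ℝ ℝ (expoI (1 / 3) third_pos.le third_lt), hA,
    fun f hf y => hf _, fun g => ?_⟩
  ext y
  change A g (expoI (1 / 3) third_pos.le third_lt y) = g y
  refine tendsto_nhds_unique (hlim g _) ?_
  rw [Metric.tendsto_atTop]
  intro ε hε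
  obtain ⟨N, hN⟩ := exists_osc g (half_pos hε)
  refine ⟨N, fun n hn => ?_⟩
  rw [Real.dist_eq]
  exact lt_of_le_of_lt (stage_ext n g _ (hN.mono hn) y) (half_lt_self hε)

theorem stage_avg (n : ℕ) : ∀ (f : C(unitInterval, ℝ)) (ε : ℝ),
    (∀ s t : unitInterval, |(s : ℝ) - t| ≤ (2 / 3) ^ n → |f s - f t| ≤ ε) → ∀ x,
    |stage wt (inv (2 / 3)) n (f.comp (expoI (2 / 3) twothird_pos.le twothird_lt)) x - f x| ≤ ε := by
  induction n with
  | zero =>
    intro f ε h x
    refine h _ _ ?_
    have a := (expoI (2 / 3) twothird_pos.le twothird_lt fun _ => false).2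
    have b := x.2
    rw [pow_zero, abs_le]
    constructor <;> linarith [a.1, a.2, b.1, b.2]
  | succ n ih =>
    intro f ε h x
    have hc : ∀ b, (f.comp (expoI (2 / 3) twothird_pos.le twothird_lt)).comp (cons b)
        = (f.comp (br (2 / 3) twothird_pos.le twothird_lt b)).comp
          (expoI (2 / 3) twothird_pos.le twothird_lt) := by
      intro b
      ext y
      simp only [ContinuousMap.comp_apply, expoI_cons]
    have hm : ∀ b, ∀ s t : unitInterval, |(s : ℝ) - t| ≤ (2 / 3) ^ n →
        |(f.comp (br (2 / 3) twothird_pos.le twothird_lt b)) s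
          - (f.comp (br (2 / 3) twothird_pos.le twothird_lt b)) t| ≤ ε := by
      intro b s t hst
      refine h _ _ ?_
      rw [br_coe, br_coe, add_sub_add_left_eq_sub, ← mul_sub, abs_mul, pow_succ,
        abs_of_pos twothird_pos]
      nlinarith
    have h0 := ih _ ε (hm false) (inv (2 / 3) false x)
    have h1 := ih _ ε (hm true) (inv (2 / 3) true x)
    rw [stage_succ, hc, hc]
    have hx := x.2
    rcases le_or_gt (x : ℝ) (1 / 3) with hl | hl
    · rw [ContinuousMap.comp_apply, br_inv twothird_pos twothird_lt false x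
        (by simp only [bit]; norm_num; exact hx.1) (by simp only [bit]; norm_num; linarith)] at h0
      rw [wt_eq_one hl]
      simpa using h0
    rcases le_or_gt (2 / 3) (x : ℝ) with hr | hr
    · rw [ContinuousMap.comp_apply, br_inv twothird_pos twothird_lt true x
        (by simp only [bit]; norm_num; linarith) (by simp only [bit]; norm_num; exact hx.2)] at h1
      rw [wt_eq_zero hr]
      simpa using h1
    rw [ContinuousMap.comp_apply, br_inv twothird_pos twothird_lt false x
        (by simp only [bit]; norm_num; exact hx.1) (by simp only [bit]; norm_num; linarith)] at h0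
    rw [ContinuousMap.comp_apply, br_inv twothird_pos twothird_lt true x
        (by simp only [bit]; norm_num; linarith) (by simp only [bit]; norm_num; exact hx.2)] at h1
    have := convex_abs (wt_nonneg x) (wt_le_one x) h0 h1
    rwa [show wt x * f x + (1 - wt x) * f x = f x by ring] at this

/-- Milutin averaging operator. -/
theorem exists_avg : ∃ (J : C(unitInterval, ℝ) →L[ℝ] C(ℕ → Bool, ℝ))
    (A : C(ℕ → Bool, ℝ) →L[ℝ] C(unitInterval, ℝ)),
    (∀ f : C(unitInterval, ℝ), (∀ x, 0 ≤ f x) → ∀ y, 0 ≤ J f y) ∧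
    (∀ g : C(ℕ → Bool, ℝ), (∀ y, 0 ≤ g y) → ∀ x, 0 ≤ A g x) ∧ ∀ f, A (J f) = f := by
  obtain ⟨A, hA, hlim⟩ := exists_markov wt_nonneg wt_le_one (inv (2 / 3))
  refine ⟨ContinuousMap.compCLM ℝ ℝ (expoI (2 / 3) twothird_pos.le twothird_lt), A,
    fun f hf y => hf _, hA, fun f => ?_⟩
  ext x
  refine tendsto_nhds_unique (hlim _ _) ?_
  rw [Metric.tendsto_atTop]
  intro ε hε
  have huc : UniformContinuous f := CompactSpace.uniformContinuous_of_continuous f.continuous
  obtain ⟨δ, hδ, hf⟩ := Metric.uniformContinuous_iff.mp huc (ε / 2) (half_pos hε)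
  have hp : Tendsto (fun n : ℕ => (2 / 3 : ℝ) ^ n) atTop (𝓝 0) :=
    tendsto_pow_atTop_nhds_zero_of_lt_one twothird_pos.le twothird_lt
  obtain ⟨N, hN⟩ := eventually_atTop.mp (hp.eventually (gt_mem_nhds hδ))
  refine ⟨N, fun n hn => ?_⟩
  rw [Real.dist_eq]
  refine lt_of_le_of_lt (stage_avg n f (ε / 2) (fun s t hst => ?_) x) (half_lt_self hε)
  have : dist s t < δ := lt_of_le_of_lt hst (hN n hn)
  exact (hf this).le

end Pool.Agent.Lib.MP_36c1dd_an
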